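import Pool.Agent.Helper767.Gjms.P_gj_main
import Pool.Agent.Helper767.Gjms.P_amb_real_exists

namespace Pool.Agent.Results.MP_0a3b2f_gt.CriticalGJMS

open CInv

/-- For every even `n ≥ 4`: let `D_g f = Δ^{n/2} f + ∑ c_C C(g, f)` be a natural differential
operator whose lower order coefficients are universal linear combinations of contractions of the
tensors `∇^l P` (each `C` is a complete contraction of `∇^{l_1} P ⊗ ... ⊗ ∇^{l_q} P ⊗ ∇^k f`,
`k < n`), and suppose that `D` is conformally invariant `E(0) → E(-n)` (for Riemannian metrics on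
open subsets of `ℝ^n`).  Then `D` is the critical GJMS operator: for every pseudo-Riemannian
metric `g` on an open set `U` the ambient metrics `g̃ = 2ρ dt² + 2t dt dρ + t² g_ρ` exist, and for
each of them and each smooth extension `f̃(t, ρ, x) = F ρ x`, homogeneous of degree `0`, of
`f = F 0`, one has `D_g f = Δ̃^{n/2} f̃` at `t = 1`, `ρ = 0`. -/
theorem result (n : ℕ) (he : Even n) (hn : 4 ≤ n) (c : OpContraction →₀ ℝ)
    (hk : ∀ C ∈ c.support, C.k < n)
    (hc : ∀ (U : Set (Fin n → ℝ)), IsOpen U →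
      ∀ g : (Fin n → ℝ) → Matrix (Fin n) (Fin n) ℝ, IsMetricOn U g →
      ∀ ω : (Fin n → ℝ) → ℝ, ContDiffOn ℝ (⊤ : ℕ∞) ω U →
      ∀ f : (Fin n → ℝ) → ℝ, ContDiffOn ℝ (⊤ : ℕ∞) f U → ∀ x ∈ U,
        opVal c (fun y => Real.exp (2 * ω y) • g y) f x
          = Real.exp (-(n : ℝ) * ω x) * opVal c g f x)
    (U : Set (Fin n → ℝ)) (hU : IsOpen U)
    (g : (Fin n → ℝ) → Matrix (Fin n) (Fin n) ℝ) (hg : IsPMetricOn U g) :
    (∃ G, IsAmbient U g G) ∧
    ∀ G, IsAmbient U g G → ∀ F : ℝ → (Fin n → ℝ) → ℝ, SmoothNear U F → ∀ x ∈ U,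
      opVal c g (F 0) x = (ambLap G)^[n / 2] (fun X => F (X 1) (xpart X)) (apt 1 x) :=
  ⟨amb_real_exists he hn hU hg,
    fun G hG F hF x hx => gj_main n he hn c hk hc U hU g hg G hG F hF x hx⟩

end Pool.Agent.Results.MP_0a3b2f_gt.CriticalGJMS
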